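import Mathlib
import Pool.Agent.K1H6.PR.Main
import Pool.Agent.Y676.Tsm
import Pool.Agent.Y660.TS.Rnk
import Pool.Agent.Y660.TS.Mom
import Pool.Agent.Y46.KEY.Key
import Pool.Agent.W307.RT.Tors

/-!
# Sequences of 2-Selmer ranks, simultaneously for the twists of almost all tuples of curves

For almost all `k`-tuples of elliptic curves `E_1, …, E_k` over `ℚ` with full rational 2-torsion,
ordered by height, and for a positive proportion of the primes `q` up to any bound
`Q ≥ (log H) ^ C`: every sequence `f` of natural numbers with `11 f n ≤ n` for all `n`, and every walk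
`f` (`f 0 = 0`, `|f (n + 1) - f n| ≤ 1`) is realised: there are primes `q = r_0 < r_1 < r_2 < …`
such that the 2-Selmer groups of the twists of all the curves `E_i` by `r_0 r_1 ⋯ r_n` have the
dimension `2 + 2 f n`, and `rank + dim Ш[2] = 2 f n`, for all `n` and `i`. In particular the 2-Selmer
rank of all the curves can jump arbitrarily when one prime is added to the twist.

The proof. The formula for the orders of the Selmer groups (the kernel modulo two of the reduced
Laplacian `L_n` of the graph of the nonresidues on `r_0, …, r_n`) is the theorem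
`Pool.Agent.K1H97.ST.main` of helper97, which is handed in as
`MP_8cb858_nt.SpanningTrees`. The new parts are in `Pool.Agent.K1H6.PR`. By Dirichlet's theorem every
infinite graph is the graph of the nonresidues of a sequence of primes (`Primes`). It remains to
construct a graph on the natural numbers such that `L_n` has the corank `f n` for all `n`. For a walk
an up step is an isolated vertex, a horizontal step a vertex joined to `0` and a down step a vertex
joined to `0` and to the last open up step (`Walk`). For a linearly bounded sequence (`Bits`, `Jump`,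
`Cnt`) let the colour of the vertex `n + 1` be the set of the binary digits in which `f n` and
`f (n + 1)` differ. There are so few colours that there are enough disjoint quadruples (units) of
vertices of the same colour: `2 ^ j` of them belong to the digit `j` and are complete before this
digit occurs. A unit is a path with four vertices; the vertex `n + 1` is joined to all the vertices of
all the units which belong to its colour. This flips the diagonal of `L_n` on these units: a unit is
nonsingular or has corank one according to the digit of `f n`, the units do not interact with each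
other nor with the other vertices, and so `L_n` has corank `f n`.
-/

set_option autoImplicit false

namespace Pool.Agent.Results.MP_8cb858_nt.PrescribedSelmerRanks

open Finset

open Pool.Agent.TH841.SH.D (Sha)

open Pool.Agent.Y667.SX (Sel2H)

/-- the curve `y² = x³ + A x + B` over `ℚ` -/
def E (A B : ℤ) : WeierstrassCurve ℚ := ⟨0, 0, 0, (A : ℚ), (B : ℚ)⟩

/-- the quadratic twist by `d` of the curve `y² = x³ + A x + B`, `c = (A, B)` -/
def Tw (d : ℤ) (c : ℤ × ℤ) : WeierstrassCurve ℚ := E (d ^ 2 * c.1) (d ^ 3 * c.2)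

open Classical in
/-- The pairs `(A, B)` of integers such that `4 A³ + 27 B² ≠ 0`, there is no prime `p` with
`p⁴ ∣ A` and `p⁶ ∣ B`, the height `max (4 |A|³) (27 B²)` is at most `H`, and `Z/2 x Z/2` embeds in
the group of the rational points of `y² = x³ + A x + B`. (The bounds `|A|, |B| ≤ H` follow from the
bound of the height. Every elliptic curve over `ℚ` is isomorphic to `E A B` for exactly one pair
with the first two properties.) -/
noncomputable def Fam (H : ℕ) : Finset (ℤ × ℤ) :=
  ((Icc (-(H : ℤ)) H) ×ˢ (Icc (-(H : ℤ)) H)).filter (fun c : ℤ × ℤ =>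
    4 * c.1 ^ 3 + 27 * c.2 ^ 2 ≠ 0 ∧ 4 * |c.1| ^ 3 ≤ H ∧ 27 * c.2 ^ 2 ≤ H ∧
    (∀ p : ℕ, p.Prime → ¬ ((p : ℤ) ^ 4 ∣ c.1 ∧ (p : ℤ) ^ 6 ∣ c.2)) ∧
    ∃ f : ZMod 2 × ZMod 2 →+ (E c.1 c.2).toAffine.Point, Function.Injective f)

/-- The 2-Selmer group `ker (H¹(ℚ, W[2]) → ∏ H¹(ℚ_v, W))` of `W` has `2 ^ (2 + s)` elements, and
`2 ^ r * #Ш(W)[2] = 2 ^ s`, where `r` is the rank of `W`. (For a curve with full rational 2-torsion:
the 2-Selmer group modulo the image of the torsion has dimension `s`.) -/
def SelmerDim (W : WeierstrassCurve ℚ) (s : ℕ) : Prop :=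
  (Finite (Sel2H W) ∧ Nat.card (Sel2H W) = 2 ^ (2 + s)) ∧
  Finite {x : Sha W // x + x = 0} ∧
    2 ^ Module.finrank ℤ W.toAffine.Point * Nat.card {x : Sha W // x + x = 0} = 2 ^ s

/-- the sequences `f` with `11 f n ≤ n` for all `n`, and the walks: `f 0 = 0` and
`|f (n + 1) - f n| ≤ 1` for all `n` -/
def Admissible (f : ℕ → ℕ) : Prop :=
  (∀ n, 11 * f n ≤ n) ∨ (f 0 = 0 ∧ ∀ n, f (n + 1) ≤ f n + 1 ∧ f n ≤ f (n + 1) + 1)

/-- The prime `q` is good for the curves `x 1, …, x k`: for every admissible sequence `f` there are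
primes `q = r 0 < r 1 < r 2 < …` such that for all `n` the 2-Selmer groups (modulo the torsion) of the
twists of all the curves by `r 0 * r 1 * ⋯ * r n` have dimension `2 * f n`. -/
def GoodPrime {k : ℕ} (x : Fin k → ℤ × ℤ) (q : ℕ) : Prop :=
  q.Prime ∧ ∀ f : ℕ → ℕ, Admissible f →
    ∃ r : ℕ → ℕ, StrictMono r ∧ r 0 = q ∧ (∀ j, (r j).Prime) ∧
      ∀ n i, SelmerDim (Tw (∏ j ∈ range (n + 1), r j : ℕ) (x i)) (2 * f n)

open Classical in
/-- the good primes `q ≤ Q` -/
noncomputable def GQ {k : ℕ} (Q : ℕ) (x : Fin k → ℤ × ℤ) : Finset ℕ :=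
  (Icc 1 Q).filter (GoodPrime x)

lemma Fam_eq (H : ℕ) : Fam H = Pool.Agent.W307.RT.Cv 2 H := by
  classical
  unfold Fam Pool.Agent.W307.RT.Cv
  apply filter_congr
  intro c _
  have h : Pool.Agent.W307.RT.HasT 2 (Pool.Agent.W307.RT.Sh c.1 c.2) ↔
      ∃ f : ZMod 2 × ZMod 2 →+ (E c.1 c.2).toAffine.Point, Function.Injective f :=
    Pool.Agent.W307.RT.tors_iff
  rw [h]

lemma selmerDim_iff {c : ℤ × ℤ} {d : ℤ} {m : ℕ} :
    SelmerDim (Tw d c) (2 * m) ↔ Pool.Agent.K1H97.ST.St c d m := by
  have e1 : (2 : ℕ) ^ (2 + 2 * m) = 4 ^ (m + 1) := by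
    rw [pow_add, pow_mul]
    ring
  have e2 : (2 : ℕ) ^ (2 * m) = 4 ^ m := by
    rw [pow_mul]
    norm_num
  unfold SelmerDim Pool.Agent.K1H97.ST.St
  rw [e1, e2]
  exact Iff.rfl

lemma sub_GQ {k : ℕ} (Q : ℕ) (x : Fin k → ℤ × ℤ) : Pool.Agent.K1H97.ST.UQ Q x ⊆ GQ Q x := by
  classical
  intro q hq
  unfold Pool.Agent.K1H97.ST.UQ at hq
  unfold GQ
  rw [mem_filter] at hq ⊢
  refine ⟨hq.1, hq.2.1, fun f hf => ?_⟩
  obtain ⟨r, r1, r2, r3, r4⟩ := Pool.Agent.K1H6.PR.gp_main hq.2 (f := f) hf
  exact ⟨r, r1, r2, r3, fun n i => selmerDim_iff.2 (r4 n i)⟩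

open Classical in
/-- **Theorem.** For every `k ≥ 1` there is a constant `C` such that for every `ε > 0` there is
`κ > 0` such that for all large `H` and all `Q ≥ (log H) ^ C` the following holds for all but at most
`ε * (#Fam H) ^ k` of the `k`-tuples of elliptic curves over `ℚ` with full rational 2-torsion and
height at most `H`: at least `κ * Q / log Q` primes `q ≤ Q` (a positive proportion of the primes up
to `Q`) are good for the tuple (`GoodPrime`): for every sequence `f` of natural numbers with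
`11 * f n ≤ n` for all `n`, and for every walk `f` on the natural numbers with steps `-1`, `0`, `1`
that starts at `0`, there are primes `q = r 0 < r 1 < r 2 < …` such that for all `n` the 2-Selmer
groups of the twists of all the curves of the tuple by `d = r 0 * r 1 * ⋯ * r n` have dimension
`2 + 2 * f n`, and `rank + dim Ш[2] = 2 * f n`. -/
theorem result (k : ℕ) (hk : 0 < k) : ∃ C : ℕ, ∀ ε : ℝ, 0 < ε → ∃ κ : ℝ, 0 < κ ∧ ∃ H₀ : ℕ,
    ∀ H : ℕ, H₀ ≤ H → ∀ Q : ℕ, (Real.log H) ^ C ≤ Q →
    (((Fintype.piFinset (fun _ : Fin k => Fam H)).filter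
      (fun x => ¬ κ * Q / Real.log Q ≤ ((GQ Q x).card : ℝ))).card : ℝ) ≤
        ε * ((Fam H).card : ℝ) ^ k := by
  refine ⟨Pool.Agent.Y676.CE k, fun ε hε => ?_⟩
  obtain ⟨κ, hκ, H₀, h⟩ := Pool.Agent.K1H97.ST.main
    (Pool.Agent.Y46.KEY.key_of Pool.Agent.Y660.TS.rnk Pool.Agent.Y676.Tsm.tsm)
    Pool.Agent.Y660.TS.mom k hk ε hε
  refine ⟨κ, hκ, H₀, fun H hH Q hQ => ?_⟩
  rw [Fam_eq]
  refine le_trans ?_ (h H hH Q hQ)
  refine Nat.cast_le.2 (card_le_card fun x hx => ?_)
  rw [mem_filter] at hx ⊢
  refine ⟨hx.1, fun h' => hx.2 (h'.trans ?_)⟩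
  exact Nat.cast_le.2 (card_le_card (sub_GQ Q x))

end Pool.Agent.Results.MP_8cb858_nt.PrescribedSelmerRanks
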