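import Pool.Agent.K1H81.PS.Fin

/-!
# The parity of the 2-Selmer rank is equidistributed (semistable curves with full rational 2-torsion)

`Sel₂(E) = ker (H¹(ℚ, E[2]) → ∏ H¹(ℚ_v, E))` has even dimension for asymptotically one half, and odd
dimension for asymptotically one half, of the semistable elliptic curves over `ℚ` with full rational
2-torsion, in each of the orderings by the naive height, the minimal discriminant and the conductor, and
in every residue class of the minimal invariants `(c₄, c₆)` modulo `m` which contains such a curve. So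
the average of `rank + dim Ш(E)[2]` has lower limit at least `1 / 2` in all of them.

The 2-Selmer group of such a curve is identified with the kernel of an explicit symmetric matrix `M`
over `𝔽₂`, and the parity of the corank of `M` with the root number (Monsky's theorem for these curves)
by means of an explicit vector `z` with `M z = diag M` (helper files `Pool/Agent/K1H81/PS/*`; the local
images at the bad places: `Pool/Agent/K1H45/PS`, `Pool/Agent/K1H69/PS`, `Pool/Agent/K1H12/PS`, written
by helper45, helper69 and helper12). The root numbers of these curves are equidistributed by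
`Pool/Agent/K1H81/RN/*`. The passage from 2-descent to cohomology is from the library (`Y667.SX`).
-/

set_option autoImplicit false

namespace Pool.Agent.Results.MP_8cb858_nt.SelmerParity

open Filter Topology
open Pool.Agent.Y667.SX (Sel2H)
open Pool.Agent.TH841.SH.D (Sha)

/-- `p + 1 - #W(𝔽_p)`, that is `p` minus the number of the affine solutions modulo `p` -/
noncomputable def ap (W : WeierstrassCurve ℤ) (p : ℕ) : ℤ :=
  p - Nat.card {z : ZMod p × ZMod p // z.2 ^ 2 + W.a₁ * z.1 * z.2 + W.a₃ * z.2 =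
    z.1 ^ 3 + W.a₂ * z.1 ^ 2 + W.a₄ * z.1 + W.a₆}

/-- The integral Weierstrass equation `W` is semistable at every prime (so it is globally minimal).
Every semistable elliptic curve over `ℚ` has such an equation. -/
def Semistable (W : WeierstrassCurve ℤ) : Prop :=
  W.Δ ≠ 0 ∧ ∀ p : ℕ, p.Prime → (p : ℤ) ∣ W.Δ → ¬ (p : ℤ) ∣ W.c₄

/-- all the 2-torsion points are rational: the 2-division polynomial has three rational roots -/
def Full (W : WeierstrassCurve ℤ) : Prop :=
  ∃ r₁ r₂ r₃ : ℚ, ∀ x : ℚ,
    4 * x ^ 3 + W.b₂ * x ^ 2 + 2 * W.b₄ * x + W.b₆ = 4 * (x - r₁) * (x - r₂) * (x - r₃)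

/-- the conductor of a semistable curve -/
def cond (W : WeierstrassCurve ℤ) : ℕ := ∏ p ∈ W.Δ.natAbs.primeFactors, p

/-- The root number of a semistable curve: the product of the local root numbers, which are `-1` at
infinity and `-a_p` at the primes of bad (multiplicative) reduction. -/
noncomputable def rootNumber (W : WeierstrassCurve ℤ) : ℤ :=
  -∏ p ∈ W.Δ.natAbs.primeFactors, (-ap W p)

/-- The naive height: the least value of `max (4|A|³, 27B²)` over the integral short equations
`y² = x³ + A x + B` of the curve. -/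
noncomputable def height (W : WeierstrassCurve ℤ) : ℕ :=
  sInf {h : ℕ | ∃ A B : ℤ, (∃ C : WeierstrassCurve.VariableChange ℚ,
    C • (W.map (Int.castRingHom ℚ)) = (⟨0, 0, 0, (A : ℚ), (B : ℚ)⟩ : WeierstrassCurve ℚ)) ∧
      h = max (4 * A.natAbs ^ 3) (27 * B.natAbs ^ 2)}

/-- the curve `y² = x³ - 27 c₄ x - 54 c₆` over `ℚ` of a pair `z = (c₄, c₆)` -/
def E (z : ℤ × ℤ) : WeierstrassCurve ℚ := ⟨0, 0, 0, -27 * (z.1 : ℚ), -54 * (z.2 : ℚ)⟩

/-- the Mordell-Weil rank -/
noncomputable def rank (z : ℤ × ℤ) : ℕ := Module.finrank ℤ (E z).toAffine.Point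

/-- the group `Ш(E)[2]` -/
abbrev Sha2 (z : ℤ × ℤ) : Type := {x : Sha (E z) // x + x = 0}

/-- the dimension of the 2-Selmer group `ker (H¹(ℚ, E[2]) → ∏ H¹(ℚ_v, E))` (`Sel2H`, classes of
continuous cocycles); by `result` this group has `2 ^ selDim` elements for the curves considered here -/
noncomputable def selDim (z : ℤ × ℤ) : ℕ := Nat.log 2 (Nat.card (Sel2H (E z)))

/-- the dimension of `Ш(E)[2]`; by `result` this group has `2 ^ shaDim` elements -/
noncomputable def shaDim (z : ℤ × ℤ) : ℕ := Nat.log 2 (Nat.card (Sha2 z))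

/-- The isomorphism classes over `ℚ` of the semistable elliptic curves with full rational 2-torsion, of
size at most `Z` for the size function `H`, whose minimal invariants satisfy `c₄ ≡ r`, `c₆ ≡ s`
modulo `m`, with the property `Q`. A class is given by its pair `(c₄, c₆)`, see the first part of
`result`. -/
def Fam (H : WeierstrassCurve ℤ → ℕ) (m : ℕ) (r s : ℤ) (Q : ℤ × ℤ → Prop) (Z : ℕ) : Set (ℤ × ℤ) :=
  {z | ∃ W : WeierstrassCurve ℤ, Semistable W ∧ Full W ∧ H W ≤ Z ∧ W.c₄ ≡ r [ZMOD m] ∧
    W.c₆ ≡ s [ZMOD m] ∧ z = (W.c₄, W.c₆) ∧ Q z}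

/-- the average of `g` over the classes of size at most `Z` -/
noncomputable def average (H : WeierstrassCurve ℤ → ℕ) (m : ℕ) (r s : ℤ) (g : ℤ × ℤ → ℝ)
    (Z : ℕ) : ℝ :=
  (∑ᶠ z ∈ Fam H m r s (fun _ => True) Z, g z) / ((Fam H m r s (fun _ => True) Z).ncard : ℝ)

/-- (1) Two semistable equations with full rational 2-torsion define isomorphic curves over `ℚ` if and
only if they have the same `(c₄, c₆)`, and then they have the same size in the three orderings.
(2) Such a curve `W` is isomorphic to `E (c₄, c₆)`, its 2-Selmer group has order `2 ^ selDim`,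
`selDim = rank + dim Ш[2] + 2`, and `(-1) ^ selDim` is its root number. (3) Let the size be the naive
height, the absolute value of the minimal discriminant, or the conductor. For all `m > 0`, `r`, `s` such
that some curve satisfies `c₄ ≡ r`, `c₆ ≡ s` modulo `m` (in particular for `m = 1`), there are finitely
many classes of size at most `Z` with these congruences, their number tends to infinity with `Z`, the
proportion of those whose 2-Selmer group has even dimension tends to `1 / 2`, and so does the proportion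
of those for which it is odd; the average of `rank + dim Ш[2]` is at least `1 / 2 - ε` for large
`Z`, for every `ε > 0`. -/
theorem result :
    (∀ W W' : WeierstrassCurve ℤ, Semistable W → Full W → Semistable W' → Full W' →
      (((∃ C : WeierstrassCurve.VariableChange ℚ,
        C • (W.map (Int.castRingHom ℚ)) = W'.map (Int.castRingHom ℚ)) ↔
        (W.c₄ = W'.c₄ ∧ W.c₆ = W'.c₆)) ∧
      (W.c₄ = W'.c₄ → W.c₆ = W'.c₆ → height W = height W' ∧ W.Δ = W'.Δ ∧ cond W = cond W'))) ∧
    (∀ W : WeierstrassCurve ℤ, Semistable W → Full W →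
      (∃ C : WeierstrassCurve.VariableChange ℚ,
        C • (W.map (Int.castRingHom ℚ)) = E (W.c₄, W.c₆)) ∧
      Finite (Sel2H (E (W.c₄, W.c₆))) ∧
      Nat.card (Sel2H (E (W.c₄, W.c₆))) = 2 ^ selDim (W.c₄, W.c₆) ∧
      Finite (Sha2 (W.c₄, W.c₆)) ∧ Nat.card (Sha2 (W.c₄, W.c₆)) = 2 ^ shaDim (W.c₄, W.c₆) ∧
      selDim (W.c₄, W.c₆) = rank (W.c₄, W.c₆) + shaDim (W.c₄, W.c₆) + 2 ∧
      (-1 : ℤ) ^ selDim (W.c₄, W.c₆) = rootNumber W) ∧
    (∃ W : WeierstrassCurve ℤ, Semistable W ∧ Full W) ∧
    ∀ H : WeierstrassCurve ℤ → ℕ, (H = height ∨ H = (fun W => W.Δ.natAbs) ∨ H = cond) →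
      ∀ (m : ℕ) (r s : ℤ), 0 < m →
      (∃ W : WeierstrassCurve ℤ, Semistable W ∧ Full W ∧ W.c₄ ≡ r [ZMOD m] ∧ W.c₆ ≡ s [ZMOD m]) →
      (∀ Z, (Fam H m r s (fun _ => True) Z).Finite) ∧
      Tendsto (fun Z => (Fam H m r s (fun _ => True) Z).ncard) atTop atTop ∧
      Tendsto (fun Z => ((Fam H m r s (fun z => Even (selDim z)) Z).ncard : ℝ) /
        ((Fam H m r s (fun _ => True) Z).ncard : ℝ)) atTop (𝓝 (1 / 2)) ∧
      Tendsto (fun Z => ((Fam H m r s (fun z => Odd (selDim z)) Z).ncard : ℝ) /
        ((Fam H m r s (fun _ => True) Z).ncard : ℝ)) atTop (𝓝 (1 / 2)) ∧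
      ∀ ε : ℝ, 0 < ε → ∀ᶠ Z in atTop,
        1 / 2 - ε ≤ average H m r s (fun z => (rank z : ℝ) + shaDim z) Z := by
  refine ⟨fun W W' hs hf hs' hf' => ⟨Pool.Agent.K1H81.RN.iso_iff hs hf hs' hf', fun g4 g6 =>
    (Pool.Agent.K1H81.RN.invariant hs hf hs' hf' g4 g6).2⟩,
    fun W hs hf => Pool.Agent.K1H81.PS.parity hs hf, Pool.Agent.K1H81.RN.nonempty,
    fun H hH m r s hm hex => ?_⟩
  obtain ⟨h1, h2, h3, h4⟩ := Pool.Agent.K1H81.PS.final hH hm hex
  have he : (fun z => Even (selDim z)) = (fun z => Pool.Agent.K1H81.PS.selDim z % 2 = 0 % 2) := by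
    funext z
    exact propext Nat.even_iff
  have ho : (fun z => Odd (selDim z)) = (fun z => Pool.Agent.K1H81.PS.selDim z % 2 = 1 % 2) := by
    funext z
    exact propext Nat.odd_iff
  refine ⟨h1, h2, ?_, ?_, h4⟩
  · rw [he]; exact h3 0
  · rw [ho]; exact h3 1

end Pool.Agent.Results.MP_8cb858_nt.SelmerParity
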