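import Mathlib
import Pool.Agent.K1H97.ST.Main
import Pool.Agent.K1H97.ST.Law
import Pool.Agent.Y676.Tsm
import Pool.Agent.Y660.TS.Rnk
import Pool.Agent.Y660.TS.Mom
import Pool.Agent.Y46.KEY.Key
import Pool.Agent.W307.RT.Tors

/-!
# The 2-Selmer groups of the twists of almost all tuples of curves and random graphs

For almost all `k`-tuples of elliptic curves `E_1, …, E_k` over `ℚ` with full rational 2-torsion,
ordered by height, and for a positive proportion of the primes `q` up to any bound
`Q ≥ (log H) ^ C` there is an integer `M` prime to `q` with the following property. Let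
`r_1, …, r_n` be different primes `≡ 1` modulo `M` and let `L` be the reduced Laplacian modulo `2` of
the graph with the vertices `q, r_1, …, r_n` whose edges are the pairs of primes which are
nonresidues modulo each other (the row and the column of `q` are deleted). Then for the twists `E` of
all the curves by `q r_1 ⋯ r_n`: the 2-Selmer group of `E` has order `4 * 4 ^ c`, where `c` is the
corank of `L`, and `2 ^ rank(E) * #Ш(E)[2] = 4 ^ c`. (For example, all the `k` twists have rank zero
and no element of order two in `Ш` if and only if the number of the spanning trees of the graph is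
odd.) For primes `r_j ≤ X_j` in given classes modulo `M q` (trivial modulo `M`) the proportion of the
tuples with a given corank `c` is, with a power saving, the explicit proportion of the symmetric
matrices of corank `c` with `n - 1` or `n - 2` rows, according to the parity of the number of the
classes which are nonresidues modulo `q`.

The proof. The prime `q` and the additional primes are squares in `ℚ_p` for all the small primes `p`
and have the right symbols modulo the large bad primes; as `q` is a good prime, a class of the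
2-Selmer group of the twist which is unramified at `q` is given by two products of additional primes.
The additional primes are in the trivial class modulo `M`, so the local conditions at these primes do
not depend on the curve: both products are given by vectors of the kernel of `L`. All other classes
are translations of these classes by the classes of the points of order two. The distribution of the
graph is in the library (joint work of helpers 338, 356, 710, 219, 839); the law of the corank is
proved here.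
-/

set_option autoImplicit false

namespace Pool.Agent.Results.MP_8cb858_nt.SpanningTrees

open Finset

open Pool.Agent.TH841.SH.D (Sha)

open Pool.Agent.Y667.SX (Sel2H)

/-- the curve `y² = x³ + A x + B` over `ℚ` -/
def E (A B : ℤ) : WeierstrassCurve ℚ := ⟨0, 0, 0, (A : ℚ), (B : ℚ)⟩

/-- the quadratic twist by `d` of the curve `y² = x³ + A x + B`, `c = (A, B)` -/
def Tw (d : ℤ) (c : ℤ × ℤ) : WeierstrassCurve ℚ := E (d ^ 2 * c.1) (d ^ 3 * c.2)

open Classical in
/-- The pairs `(A, B)` of integers such that `4 A³ + 27 B² ≠ 0`, there is no prime `p` with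
`p⁴ ∣ A` and `p⁶ ∣ B`, the height `max (4 |A|³) (27 B²)` is at most `H`, and `Z/2 x Z/2` embeds in
the group of the rational points of `y² = x³ + A x + B`. (The bounds `|A|, |B| ≤ H` follow from the
bound of the height. Every elliptic curve over `ℚ` is isomorphic to `E A B` for exactly one pair
with the first two properties.) -/
noncomputable def Fam (H : ℕ) : Finset (ℤ × ℤ) :=
  ((Icc (-(H : ℤ)) H) ×ˢ (Icc (-(H : ℤ)) H)).filter (fun c : ℤ × ℤ =>
    4 * c.1 ^ 3 + 27 * c.2 ^ 2 ≠ 0 ∧ 4 * |c.1| ^ 3 ≤ H ∧ 27 * c.2 ^ 2 ≤ H ∧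
    (∀ p : ℕ, p.Prime → ¬ ((p : ℤ) ^ 4 ∣ c.1 ∧ (p : ℤ) ^ 6 ∣ c.2)) ∧
    ∃ f : ZMod 2 × ZMod 2 →+ (E c.1 c.2).toAffine.Point, Function.Injective f)

/-- The 2-Selmer group `ker (H¹(ℚ, W[2]) → ∏ H¹(ℚ_v, W))` of `W` has `2 ^ (2 + s)` elements, and
`2 ^ r * #Ш(W)[2] = 2 ^ s`, where `r` is the rank of `W`. (For a curve with full rational 2-torsion:
the 2-Selmer group modulo the image of the torsion has dimension `s`.) -/
def SelmerDim (W : WeierstrassCurve ℚ) (s : ℕ) : Prop :=
  (Finite (Sel2H W) ∧ Nat.card (Sel2H W) = 2 ^ (2 + s)) ∧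
  Finite {x : Sha W // x + x = 0} ∧
    2 ^ Module.finrank ℤ W.toAffine.Point * Nat.card {x : Sha W // x + x = 0} = 2 ^ s

open Classical in
/-- `1` when `m` is not a square modulo `p`, otherwise `0` -/
noncomputable def nres (p m : ℕ) : ZMod 2 := if IsSquare (m : ZMod p) then 0 else 1

/-- The reduced Laplacian modulo `2` of the graph with the vertices `q, r 0, …, r (n - 1)`, two of
them adjacent when they are nonresidues modulo each other (for primes `≡ 1` modulo `4` this is a
symmetric relation): the row and the column of `q` are deleted. -/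
noncomputable def Lap {n : ℕ} (q : ℕ) (r : Fin n → ℕ) : Matrix (Fin n) (Fin n) (ZMod 2) :=
  Matrix.of fun i j => if i = j then (∑ k, nres (r i) (r k)) + nres (r i) q else nres (r i) (r j)

open Classical in
/-- the `n`-tuples of different primes `r i ≤ X i`, `r i ≡ a i` modulo `m` -/
noncomputable def Box {n : ℕ} (m : ℕ) (a X : Fin n → ℕ) : Finset (Fin n → ℕ) :=
  (Fintype.piFinset fun i => (range (X i + 1)).filter fun p => p.Prime ∧ p % m = a i % m).filter
    Function.Injective

/-- `∏_{i < (m - c + 1) / 2} (1 - 2 ^ (-(2 i + 1))) * ∏_{i < c} (1 - 2 ^ (i - m)) / (2 ^ (i + 1) - 1)`,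
the proportion of the matrices of corank `c` among the symmetric matrices with `m` rows over the
field with two elements (this is `0` for `c > m`) -/
noncomputable def symProb (m c : ℕ) : ℝ :=
  (∏ i ∈ range ((m - c + 1) / 2), (1 - (1 / 2 : ℝ) ^ (2 * i + 1))) *
    ∏ i ∈ range c, ((1 - 2 ^ i / 2 ^ m) / (2 ^ (i + 1) - 1))

open Classical in
/-- The proportion for the classes `a`. Let `s` be the number of the `a i` which are not squares
modulo `q`. The proportion is `symProb (n - 1) c` for odd `s`, `symProb (n - 2) c` for even `s ≥ 2`,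
and `symProb (n - 1) (c - 1)` (`0` for `c = 0`) for `s = 0`. -/
noncomputable def prob {n : ℕ} (q : ℕ) (a : Fin n → ℕ) (c : ℕ) : ℝ :=
  if (univ.filter fun i => ¬ IsSquare ((a i : ℕ) : ZMod q)).card = 0 then
    (if c = 0 then 0 else symProb (n - 1) (c - 1))
  else if Odd (univ.filter fun i => ¬ IsSquare ((a i : ℕ) : ZMod q)).card then symProb (n - 1) c
    else symProb (n - 2) c

open Classical in
/-- The prime `q` is good for the curves `x 1, …, x k`: there is a positive multiple `M` of `8`,
prime to `q`, such that for all `n ≥ 1`: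

* for all `n`-tuples of different primes `r j ≡ 1` modulo `M`, `r j ≠ q`: the 2-Selmer groups (modulo
  the torsion) of the twists of all the curves by `q * ∏ r j` have dimension `2 c`, where `c` is the
  corank of the reduced Laplacian `Lap q r`;
* for all classes `a j ≡ 1` modulo `M`, prime to `q`, and all `c` there is a constant `C` such that
  for all `z ≥ 2` and `z ≤ X j ≤ exp (z ^ (1 / (24 n)))` the number of the tuples of different primes
  `r j ≤ X j`, `r j ≡ a j` modulo `M q`, such that the 2-Selmer groups (modulo the torsion) of the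
  twists of all the curves by `q * ∏ r j` have dimension `2 c` is `prob q a c` times the number of all
  the tuples, up to a relative error `C * z ^ (-1 / 24)`. -/
def GoodPrime {k : ℕ} (x : Fin k → ℤ × ℤ) (q : ℕ) : Prop :=
  q.Prime ∧ ∃ M : ℕ, 0 < M ∧ 8 ∣ M ∧ Nat.Coprime q M ∧ ∀ n : ℕ, 0 < n →
    (∀ r : Fin n → ℕ, Function.Injective r → (∀ j, (r j).Prime ∧ r j % M = 1 ∧ r j ≠ q) →
      ∀ i, SelmerDim (Tw (q * ∏ j, r j : ℕ) (x i)) (2 * (n - (Lap q r).rank))) ∧
    ∀ a : Fin n → ℕ, (∀ j, a j % M = 1 ∧ Nat.Coprime (a j) q) → ∀ c : ℕ, ∃ C : ℝ,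
      ∀ (X : Fin n → ℕ) (z : ℕ), 2 ≤ z →
        (∀ j, z ≤ X j ∧ Real.log (X j) ≤ (z : ℝ) ^ (1 / (24 * n : ℝ))) →
        |(((Box (M * q) a X).filter fun r =>
            ∀ i, SelmerDim (Tw (q * ∏ j, r j : ℕ) (x i)) (2 * c)).card : ℝ) -
            prob q a c * ((Box (M * q) a X).card : ℝ)| ≤
          C * (z : ℝ) ^ (-(1 / 24 : ℝ)) * ((Box (M * q) a X).card : ℝ)

open Classical in
/-- the good primes `q ≤ Q` -/
noncomputable def GQ {k : ℕ} (Q : ℕ) (x : Fin k → ℤ × ℤ) : Finset ℕ :=
  (Icc 1 Q).filter (GoodPrime x)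

lemma Fam_eq (H : ℕ) : Fam H = Pool.Agent.W307.RT.Cv 2 H := by
  classical
  unfold Fam Pool.Agent.W307.RT.Cv
  apply filter_congr
  intro c _
  have h : Pool.Agent.W307.RT.HasT 2 (Pool.Agent.W307.RT.Sh c.1 c.2) ↔
      ∃ f : ZMod 2 × ZMod 2 →+ (E c.1 c.2).toAffine.Point, Function.Injective f :=
    Pool.Agent.W307.RT.tors_iff
  rw [h]

lemma selmerDim_iff {c : ℤ × ℤ} {d : ℤ} {m : ℕ} :
    SelmerDim (Tw d c) (2 * m) ↔ Pool.Agent.K1H97.ST.St c d m := by
  have e1 : (2 : ℕ) ^ (2 + 2 * m) = 4 ^ (m + 1) := by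
    rw [pow_add, pow_mul]
    ring
  have e2 : (2 : ℕ) ^ (2 * m) = 4 ^ m := by
    rw [pow_mul]
    norm_num
  unfold SelmerDim Pool.Agent.K1H97.ST.St
  rw [e1, e2]
  exact Iff.rfl

lemma symProb_eq (m c : ℕ) : symProb m c = Pool.Agent.K1H97.ST.spc m c := rfl

lemma lap_eq {n : ℕ} (q : ℕ) (r : Fin n → ℕ) : Lap q r = Pool.Agent.K1H97.ST.Lap q r := rfl

lemma prob_eq {n : ℕ} (q : ℕ) (a : Fin n → ℕ) (c : ℕ) :
    prob q a c = Pool.Agent.K1H97.ST.pc (fun i => Pool.Agent.Y703.CQ.nr q (a i)) c := by
  classical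
  have hne : ∀ i, Pool.Agent.Y703.CQ.nr q (a i) ≠ 0 ↔ ¬ IsSquare ((a i : ℕ) : ZMod q) := by
    intro i
    unfold Pool.Agent.Y703.CQ.nr
    by_cases h : IsSquare ((a i : ℕ) : ZMod q)
    · rw [if_pos h]
      simp [h]
    · rw [if_neg h]
      simp [h]
  have h1 : ∑ i, Pool.Agent.Y703.CQ.nr q (a i) =
      ((univ.filter fun i => ¬ IsSquare ((a i : ℕ) : ZMod q)).card : ZMod 2) := by
    rw [card_filter, Nat.cast_sum]
    refine sum_congr rfl fun i _ => ?_
    by_cases h : IsSquare ((a i : ℕ) : ZMod q)
    · rw [if_neg (not_not.2 h)]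
      unfold Pool.Agent.Y703.CQ.nr
      rw [if_pos h, Nat.cast_zero]
    · rw [if_pos h]
      unfold Pool.Agent.Y703.CQ.nr
      rw [if_neg h, Nat.cast_one]
  have h2 : (fun i => Pool.Agent.Y703.CQ.nr q (a i)) = 0 ↔
      (univ.filter fun i => ¬ IsSquare ((a i : ℕ) : ZMod q)).card = 0 := by
    rw [card_eq_zero, filter_eq_empty_iff]
    constructor
    · intro h i _ h'
      exact (hne i).2 h' (congrFun h i)
    · intro h
      funext i
      by_contra h'
      exact h (mem_univ i) ((hne i).1 h')
  unfold prob Pool.Agent.K1H97.ST.pc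
  rw [h1]
  by_cases h0 : (univ.filter fun i => ¬ IsSquare ((a i : ℕ) : ZMod q)).card = 0
  · rw [if_pos h0, if_pos (h2.2 h0), symProb_eq]
  · rw [if_neg h0, if_neg fun h => h0 (h2.1 h)]
    rcases Nat.even_or_odd (univ.filter fun i => ¬ IsSquare ((a i : ℕ) : ZMod q)).card with he | ho
    · have h3 : ((univ.filter fun i => ¬ IsSquare ((a i : ℕ) : ZMod q)).card : ZMod 2) = 0 :=
        (ZMod.natCast_eq_zero_iff_even).2 he
      rw [if_neg (Nat.not_odd_iff_even.2 he), h3, if_neg zero_ne_one, symProb_eq]
    · have h3 : ((univ.filter fun i => ¬ IsSquare ((a i : ℕ) : ZMod q)).card : ZMod 2) = 1 :=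
        (ZMod.natCast_eq_one_iff_odd).2 ho
      rw [if_pos ho, h3, if_pos rfl, symProb_eq]

lemma box_eq {n : ℕ} (m : ℕ) (a X : Fin n → ℕ) : Box m a X =
    (Fintype.piFinset fun i => Pool.Agent.R338.EQ.clsM m (a i) (X i)).filter
      Function.Injective := by
  classical
  unfold Box Pool.Agent.R338.EQ.clsM
  congr

lemma good_of {k : ℕ} (hk : 0 < k) {x : Fin k → ℤ × ℤ} {q : ℕ}
    (h : Pool.Agent.K1H97.ST.GP x q) : GoodPrime x q := by
  classical
  obtain ⟨hq, hq8, M, hM, hM8, hcop, h⟩ := h
  have hM1 : 1 < M := by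
    have := Nat.le_of_dvd hM hM8
    omega
  have hmod : ∀ {r : ℕ}, r % M = 1 → r ≡ 1 [MOD M] := by
    intro r hr
    unfold Nat.ModEq
    rw [hr, Nat.mod_eq_of_lt hM1]
  refine ⟨hq, M, hM, hM8, hcop, fun n hn => ⟨fun r hr hp i => ?_, fun a ha c => ?_⟩⟩
  · rw [selmerDim_iff]
    exact h n r hr (fun j => ⟨(hp j).1, hmod (hp j).2.1, (hp j).2.2⟩) i
  · have ha1 : ∀ j, Nat.Coprime (a j) (M * q) := by
      intro j
      refine Nat.Coprime.mul_right ?_ (ha j).2
      have h1 : Nat.gcd (a j) M = 1 := by
        rw [Nat.gcd_comm, Nat.gcd_rec, (ha j).1, Nat.gcd_one_left]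
      exact h1
    have ha4 : ∀ j, a j % 4 = 1 := by
      intro j
      have h1 : a j ≡ 1 [MOD 4] := (hmod (ha j).1).of_dvd (Dvd.dvd.trans (by norm_num) hM8)
      exact h1
    obtain ⟨C, -, hC⟩ := Pool.Agent.K1H97.ST.box_law hn hq (by omega) hM
      (Dvd.dvd.trans (by norm_num) hM8) a ha1 ha4 c
    refine ⟨C, fun X z hz hX => ?_⟩
    have key := hC X z hz (fun j => (hX j).1) (fun j => (hX j).2)
    rw [← prob_eq] at key
    have e1 : ((Fintype.piFinset fun i => Pool.Agent.R338.EQ.clsM (M * q) (a i) (X i)).filter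
        fun p => Function.Injective p) = Box (M * q) a X := (box_eq _ _ _).symm
    have e2 : ((Fintype.piFinset fun i => Pool.Agent.R338.EQ.clsM (M * q) (a i) (X i)).filter
        fun p => Function.Injective p ∧ n - (Pool.Agent.K1H97.ST.Lap q p).rank = c) =
        (Box (M * q) a X).filter fun r =>
          ∀ i, SelmerDim (Tw (q * ∏ j, r j : ℕ) (x i)) (2 * c) := by
      rw [← e1, filter_filter]
      refine filter_congr fun r hr => and_congr_right fun hinj => ?_
      rw [Fintype.mem_piFinset] at hr
      have hr' : ∀ j, (r j).Prime ∧ r j ≡ 1 [MOD M] ∧ r j ≠ q := by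
        intro j
        obtain ⟨-, h2, h3⟩ := Pool.Agent.R338.EQ.mem_clsM.1 (hr j)
        have h3' : r j ≡ a j [MOD M * q] := h3
        refine ⟨h2, (h3'.of_dvd (Dvd.intro q rfl)).trans (hmod (ha j).1), ?_⟩
        intro h4
        have h5 : r j ≡ a j [MOD q] := h3'.of_dvd (Dvd.intro_left M rfl)
        rw [h4] at h5
        have h6 : q ∣ a j := by
          have h7 : q % q = a j % q := h5
          rw [Nat.mod_self] at h7
          exact Nat.dvd_of_mod_eq_zero h7.symm
        have h8 := Nat.Coprime.eq_one_of_dvd (ha j).2.symm h6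
        exact hq.one_lt.ne' h8
      have hst := h n r hinj hr'
      constructor
      · intro hc i
        rw [selmerDim_iff, ← hc]
        exact hst i
      · intro hc
        have h9 := (selmerDim_iff.1 (hc ⟨0, hk⟩)).1.2
        have h10 := (hst ⟨0, hk⟩).1.2
        rw [h10] at h9
        have h11 := Nat.pow_right_injective (by norm_num : 2 ≤ 4) h9
        omega
    rw [e1, e2] at key
    exact key

lemma sub_GQ {k : ℕ} (hk : 0 < k) (Q : ℕ) (x : Fin k → ℤ × ℤ) :
    Pool.Agent.K1H97.ST.UQ Q x ⊆ GQ Q x := by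
  classical
  intro q hq
  unfold Pool.Agent.K1H97.ST.UQ at hq
  unfold GQ
  rw [mem_filter] at hq ⊢
  exact ⟨hq.1, good_of hk hq.2⟩

open Classical in
/-- **Theorem.** For every `k ≥ 1` there is a constant `C` such that for every `ε > 0` there is
`κ > 0` such that for all large `H` and all `Q ≥ (log H) ^ C` the following holds for all but at most
`ε * (#Fam H) ^ k` of the `k`-tuples of elliptic curves over `ℚ` with full rational 2-torsion and
height at most `H`: at least `κ * Q / log Q` primes `q ≤ Q` (a positive proportion of the primes up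
to `Q`) are good for the tuple (`GoodPrime`): for all products of `q` and of different primes
`r 1, …, r n` in the trivial class modulo some `M`, prime to `q`, the dimensions of the 2-Selmer
groups (modulo the torsion) of the twists of all the curves of the tuple are equal to `2 c`, where
`c` is the corank of the reduced Laplacian modulo `2` of the graph of the nonresidues, and `c` has
the explicit distribution `prob` when the primes `r j` vary in boxes. -/
theorem result (k : ℕ) (hk : 0 < k) : ∃ C : ℕ, ∀ ε : ℝ, 0 < ε → ∃ κ : ℝ, 0 < κ ∧ ∃ H₀ : ℕ,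
    ∀ H : ℕ, H₀ ≤ H → ∀ Q : ℕ, (Real.log H) ^ C ≤ Q →
    (((Fintype.piFinset (fun _ : Fin k => Fam H)).filter
      (fun x => ¬ κ * Q / Real.log Q ≤ ((GQ Q x).card : ℝ))).card : ℝ) ≤
        ε * ((Fam H).card : ℝ) ^ k := by
  refine ⟨Pool.Agent.Y676.CE k, fun ε hε => ?_⟩
  obtain ⟨κ, hκ, H₀, h⟩ := Pool.Agent.K1H97.ST.main
    (Pool.Agent.Y46.KEY.key_of Pool.Agent.Y660.TS.rnk Pool.Agent.Y676.Tsm.tsm)
    Pool.Agent.Y660.TS.mom k hk ε hε
  refine ⟨κ, hκ, H₀, fun H hH Q hQ => ?_⟩
  rw [Fam_eq]
  refine le_trans ?_ (h H hH Q hQ)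
  refine Nat.cast_le.2 (card_le_card fun x hx => ?_)
  rw [mem_filter] at hx ⊢
  refine ⟨hx.1, fun h' => hx.2 (h'.trans ?_)⟩
  exact Nat.cast_le.2 (card_le_card (sub_GQ hk Q x))

end Pool.Agent.Results.MP_8cb858_nt.SpanningTrees
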